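import Mathlib
import Pool.Agent.Q182.SBDefs
import Pool.Agent.Q182.SBNot2

/-!
# The supremum of the topologies `τ_c` need not be compatible with `λ_b`

For every D-sequence `b` such that every positive integer divides some `b n` (so that `λ_b` is the
profinite topology of the integers and `H_b = ℚ/ℤ`), the topology `s_b` has a continuous character
that is not in `H_b`, the character group of `λ_b`. Such D-sequences exist.
-/

namespace Pool.Agent.Results.MP_4ba7b3_gt.NotCompatible

open Q182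
open scoped Nat

theorem result :
    (∀ b : ℕ → ℕ, IsDSeq b → chars (lam b) = Hset b) ∧
    (∀ b : ℕ → ℕ, IsDSeq b → (∀ m : ℕ, 0 < m → ∃ n, m ∣ b n) →
      ∃ χ ∈ chars (sTop b), χ ∉ Hset b) ∧
    (∃ b : ℕ → ℕ, IsDSeq b ∧ ∀ m : ℕ, 0 < m → ∃ n, m ∣ b n) := by
  refine ⟨fun b hb => SB.chars_lam hb, fun b hb h => SB.not_compatible_profinite hb h,
    fun n => (n + 1)!, ⟨rfl, fun n => Nat.factorial_pos _, fun n => ⟨?_, ?_⟩⟩, fun m hm => ?_⟩
  · exact Nat.factorial_dvd_factorial (Nat.le_succ _)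
  · exact ((Nat.factorial_lt (Nat.succ_pos n)).2 (Nat.lt_succ_self _)).ne
  · exact ⟨m, Nat.dvd_factorial hm (Nat.le_succ _)⟩

end Pool.Agent.Results.MP_4ba7b3_gt.NotCompatible
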